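import Pool.Agent.H52.FT.Targets

namespace Pool.Agent.H56.FT.BF

open Pool.Agent.H52.FT

theorem bf (h1 : T_FF) (h2 : T_BAL) : T_BF := by
  intro α _ b S w hS hU hB
  set n : ℕ := S.card with hn
  set i : ℕ := max 1 (Nat.clog 8 n) with hi
  have hi1 : 1 ≤ i := le_max_left _ _
  have hni : n ≤ 8 ^ i := by
    calc n ≤ 8 ^ Nat.clog 8 n := Nat.le_pow_clog (by norm_num) n
      _ ≤ 8 ^ i := Nat.pow_le_pow_right (by norm_num) (le_max_right _ _)
  have hF := h1 α i
  have hmain := h2 α (7 * i + 1) (4 * i ^ 2 + 3) b (8 ^ i) S w (by omega) hF hni hS hU hB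
  have hn1 : (1 : ℝ) ≤ n := by exact_mod_cast hS
  have hl0 : 0 ≤ Real.log n := Real.log_nonneg hn1
  have hiT : (i : ℝ) ≤ 1 + Real.log n := by
    rw [hi]
    push_cast
    apply max_le
    · linarith
    · by_cases hc : Nat.clog 8 n = 0
      · rw [hc]; push_cast; linarith
      · have h3 : 8 ^ (Nat.clog 8 n - 1) < n := by
          apply Nat.pow_pred_clog_lt_self (by norm_num)
          by_contra hh
          apply hc
          exact Nat.clog_of_right_le_one (by omega) 8
        have h4 : ((8 : ℝ)) ^ (Nat.clog 8 n - 1) < n := by exact_mod_cast h3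
        have h5 : Real.log ((8 : ℝ) ^ (Nat.clog 8 n - 1)) < Real.log n :=
          Real.log_lt_log (by positivity) h4
        rw [Real.log_pow] at h5
        have h6 : (1 : ℝ) ≤ Real.log 8 := by
          rw [Real.le_log_iff_exp_le (by norm_num)]
          have := Real.exp_one_lt_d9
          linarith
        have h7 : ((Nat.clog 8 n - 1 : ℕ) : ℝ) = (Nat.clog 8 n : ℝ) - 1 := by
          push_cast [Nat.one_le_iff_ne_zero.mpr hc]
          ring
        rw [h7] at h5
        have h8 : (0 : ℝ) ≤ (Nat.clog 8 n : ℝ) - 1 := by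
          rw [← h7]; positivity
        nlinarith
  push_cast at hmain
  set T : ℝ := 1 + Real.log n with hT
  have hlog : Real.log n = T - 1 := by rw [hT]; ring
  rw [hlog] at hmain
  have hT1 : 1 ≤ T := by linarith
  have hi0 : (0 : ℝ) ≤ i := by positivity
  have hi2 : (i : ℝ) ^ 2 ≤ T ^ 2 := pow_le_pow_left₀ hi0 hiT 2
  have hb0 : (0 : ℝ) ≤ b := by positivity
  have key : 7 * (i : ℝ) + 1 + (4 * (i : ℝ) ^ 2 + 3 + b + 1) * (T - 1) ≤ 16 * T ^ 3 + b * T := by
    have e1 : (4 * (i : ℝ) ^ 2 + 3 + b + 1) * (T - 1) ≤ (4 * T ^ 2 + 3 + b + 1) * (T - 1) := by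
      apply mul_le_mul_of_nonneg_right _ (by linarith)
      linarith
    have e2 : (4 * T ^ 2 + 3 + b + 1) * (T - 1) = 4 * T ^ 3 - 4 * T ^ 2 + 4 * T - 4 + b * T - b := by
      ring
    have e3 : T ≤ T ^ 3 := by
      have : T * 1 ≤ T * T ^ 2 := by
        apply mul_le_mul_of_nonneg_left _ (by linarith)
        nlinarith
      nlinarith
    nlinarith [sq_nonneg T]
  have hfin : (n : ℝ) * (7 * (i : ℝ) + 1 + (4 * (i : ℝ) ^ 2 + 3 + b + 1) * (T - 1)) ≤
      n * (16 * T ^ 3 + b * T) := mul_le_mul_of_nonneg_left key (by linarith)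
  have e5 : (n : ℝ) * (16 * T ^ 3 + b * T) = 16 * n * T ^ 3 + b * n * T := by ring
  linarith

end Pool.Agent.H56.FT.BF
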