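import Pool.Agent.H52.FT.Targets

namespace Pool.Agent.H56.FT.GL

open Pool.Agent.H52.FT

theorem gl : T_GL := by
  intro α L l hl
  induction hn : L.length using Nat.strong_induction_on generalizing L with
  | _ n ih =>
    intro hL
    by_cases hle : L.length ≤ l
    · refine ⟨[L], by simp, ?_, ?_⟩
      · intro M hM
        rw [List.mem_singleton] at hM
        subst hM
        exact ⟨hL, hle⟩
      · have : 0 < L.length := List.length_pos_iff.mpr hL
        simp
        omega
    · push Not at hle
      have hdl : (L.drop l).length = L.length - l := List.length_drop
      have hne : L.drop l ≠ [] := by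
        intro h0
        rw [h0] at hdl
        simp at hdl
        omega
      obtain ⟨Ls, h1, h2, h3⟩ := ih (L.drop l).length (by rw [hdl]; omega) (L.drop l) rfl hne
      have hLs : Ls ≠ [] := by
        rintro rfl
        exact hne (by simpa using h1.symm)
      have hLs1 : 1 ≤ Ls.length := by
        have := List.length_pos_iff.mpr hLs
        omega
      refine ⟨L.take l :: Ls, ?_, ?_, ?_⟩
      · rw [List.flatten_cons, h1, List.take_append_drop]
      · intro M hM
        rcases List.mem_cons.mp hM with rfl | hM
        · have htl : (L.take l).length = l := by
            rw [List.length_take]; omega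
          refine ⟨?_, by omega⟩
          intro h0
          rw [h0] at htl
          simp at htl
          omega
        · exact h2 M hM
      · rw [hdl] at h3
        rw [List.length_cons, ← hn]
        have h4 : (Ls.length + 1 - 1) * l = (Ls.length - 1) * l + l := by
          obtain ⟨t, ht⟩ : ∃ t, Ls.length = t + 1 := ⟨Ls.length - 1, by omega⟩
          rw [ht]
          simp
          ring
        rw [h4]
        omega

end Pool.Agent.H56.FT.GL
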