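import Pool.Agent.H52.FT.Targets

namespace Pool.Agent.H56.FT.LOW

open Pool.Agent.H52.FT

lemma cost_count {α : Type} [DecidableEq α] (c : ℝ) (b : List α) (L : List α) (hL : L.Nodup) :
    cost (fun z => c - b.count z) L = L.length * c - tot L.toFinset b := by
  have h1 : cost (fun z => c - (b.count z : ℝ)) L =
      ∑ z ∈ L.toFinset, (c - (b.count z : ℝ)) := by
    rw [List.sum_toFinset _ hL]
    rfl
  rw [h1, Finset.sum_sub_distrib, Finset.sum_const, List.toFinset_card_of_nodup hL, nsmul_eq_mul]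
  simp [tot]

/-- the real inequality -/
lemma real_ineq (n v κ lam X : ℝ) (hv1 : 1 ≤ v) (hvn : v ≤ n) (hκ0 : 0 ≤ κ) (hκ : 16 * κ ≤ n)
    (hl0 : 0 ≤ lam) (hl : 16 * lam ≤ n)
    (hX : X * (3 * n) ≤ lam * (n - v) * (3 * n - v)) :
    κ * n - κ ^ 2 + 7 / 6 * lam * κ - lam ^ 2 ≤ v ^ 2 - 2 * κ * v + n * lam + κ * n - X := by
  have hn : 0 < n := by linarith
  -- X ≤ lam n - 4/3 lam v + lam v² / (3 n)
  have h1 : X ≤ lam * n - 4 / 3 * lam * v + lam * (v ^ 2 / (3 * n)) := by
    have h2 : lam * n - 4 / 3 * lam * v + lam * (v ^ 2 / (3 * n)) =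
        lam * (n - v) * (3 * n - v) / (3 * n) := by
      field_simp
      ring
    rw [h2, le_div_iff₀ (by linarith)]
    exact hX
  suffices h : 7 / 6 * lam * κ - lam ^ 2 ≤
      (v - κ) ^ 2 + 4 / 3 * lam * v - lam * (v ^ 2 / (3 * n)) by nlinarith
  by_cases hv : v ≤ n / 2
  · have h3 : v ^ 2 / (3 * n) ≤ v / 6 := by
      rw [div_le_div_iff₀ (by linarith) (by norm_num)]
      nlinarith
    have h4 : lam * (v ^ 2 / (3 * n)) ≤ lam * (v / 6) := mul_le_mul_of_nonneg_left h3 hl0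
    nlinarith [sq_nonneg (v - κ + 7 / 12 * lam), sq_nonneg lam]
  · push Not at hv
    have h3 : v ^ 2 / (3 * n) ≤ v / 3 := by
      rw [div_le_div_iff₀ (by linarith) (by norm_num)]
      nlinarith
    have h4 : lam * (v ^ 2 / (3 * n)) ≤ lam * (v / 3) := mul_le_mul_of_nonneg_left h3 hl0
    have h5 : 7 / 16 * n ≤ v - κ := by linarith
    have h6 : (7 / 16 * n) ^ 2 ≤ (v - κ) ^ 2 := pow_le_pow_left₀ (by positivity) h5 2
    have h7 : lam * κ ≤ (n / 16) * (n / 16) := by
      apply mul_le_mul (by linarith) (by linarith) hκ0 (by positivity)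
    have h8 : 0 ≤ lam * v := by positivity
    nlinarith [sq_nonneg lam, sq_nonneg n]

lemma rpow_ineq (n v C lam : ℝ) (hv0 : 0 ≤ v) (hvn : v ≤ n) (hn : 0 < n) (hC : 0 ≤ C)
    (hlam : lam = C * n ^ ((1 : ℝ) / 3)) :
    C * (n - v) ^ ((4 : ℝ) / 3) * (3 * n) ≤ lam * (n - v) * (3 * n - v) := by
  set s : ℝ := n ^ ((1 : ℝ) / 3) with hs
  set t : ℝ := (n - v) ^ ((1 : ℝ) / 3) with ht
  have hnv : 0 ≤ n - v := by linarith
  have hs0 : 0 < s := Real.rpow_pos_of_pos hn _
  have ht0 : 0 ≤ t := Real.rpow_nonneg hnv _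
  have hs3 : s ^ 3 = n := by
    rw [hs, ← Real.rpow_natCast, ← Real.rpow_mul hn.le]; norm_num
  have ht3 : t ^ 3 = n - v := by
    rw [ht, ← Real.rpow_natCast, ← Real.rpow_mul hnv]; norm_num
  have ht4 : (n - v) ^ ((4 : ℝ) / 3) = t ^ 4 := by
    rw [ht, ← Real.rpow_natCast, ← Real.rpow_mul hnv]; norm_num
  rw [ht4, hlam]
  have h1 : 3 * n - v = 2 * s ^ 3 + t ^ 3 := by linarith
  have h2 : n = s ^ 3 := hs3.symm
  rw [h1, ← ht3, h2]
  have h3 : 3 * t * s ^ 2 ≤ 2 * s ^ 3 + t ^ 3 := by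
    nlinarith [mul_nonneg (sq_nonneg (t - s)) (by linarith : 0 ≤ t + 2 * s)]
  have h4 : 0 ≤ C * s * t ^ 3 := by positivity
  calc C * t ^ 4 * (3 * s ^ 3) = (C * s * t ^ 3) * (3 * t * s ^ 2) := by ring
    _ ≤ (C * s * t ^ 3) * (2 * s ^ 3 + t ^ 3) := mul_le_mul_of_nonneg_left h3 h4
    _ = C * s * t ^ 3 * (2 * s ^ 3 + t ^ 3) := by ring

theorem low : T_LOW := by
  intro α _ S u b C lam κ L hC hIH hU htu htot hlam hκ hl hL hnot
  set V : Finset α := L.toFinset with hV
  have hLne : L ≠ [] := ne_nil_of_not_sublist hnot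
  have hVS : V ⊆ S := fun z hz => hL.2 z (List.mem_toFinset.mp hz)
  have hVcard : V.card = L.length := List.toFinset_card_of_nodup hL.1
  have hLpos : 1 ≤ L.length := List.length_pos_iff.mpr hLne
  have hle : L.length ≤ S.card := by rw [← hVcard]; exact Finset.card_le_card hVS
  have hTS : S \ V ⊂ S := by
    refine Finset.ssubset_iff_subset_ne.mpr ⟨Finset.sdiff_subset, ?_⟩
    intro h0
    have h1 : (S \ V).card = S.card := by rw [h0]
    rw [Finset.card_sdiff_of_subset hVS] at h1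
    omega
  have hUT : Uni (S \ V) b := by
    intro M hM
    have hLM : Wd S (L ++ M) := by
      refine ⟨?_, ?_⟩
      · rw [List.nodup_append]
        refine ⟨hL.1, hM.1, ?_⟩
        intro x hx y hy hxy
        subst hxy
        have := hM.2 x hy
        rw [Finset.mem_sdiff] at this
        exact this.2 (List.mem_toFinset.mpr hx)
      · intro z hz
        rcases List.mem_append.mp hz with h | h
        · exact hL.2 z h
        · exact (Finset.mem_sdiff.mp (hM.2 z h)).1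
    exact sublist_right_of_not_left hnot (hU _ hLM)
  have h1 := hIH (S \ V) hTS b hUT
  have hcardT : ((S \ V).card : ℝ) = S.card - L.length := by
    rw [Finset.card_sdiff_of_subset hVS, hVcard, Nat.cast_sub hle]
  rw [hcardT] at h1
  have h2 : tot S b = tot (S \ V) b + tot V b := tot_sdiff hVS b
  have h3 : tot S (u ++ b) = tot S u + tot S b := tot_append S u b
  have h2' : (tot S b : ℝ) = tot (S \ V) b + tot V b := by exact_mod_cast h2
  have h3' : (tot S (u ++ b) : ℝ) = tot S u + tot S b := by exact_mod_cast h3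
  have htu' : (tot S u : ℝ) = κ * S.card := by exact_mod_cast htu
  have hcost := cost_count (2 * (S.card : ℝ) - 2 * κ) b L hL.1
  rw [hcost, ← hV]
  have hn0 : (0 : ℝ) < S.card := by
    have : 0 < S.card := by omega
    exact_mod_cast this
  have hv1 : (1 : ℝ) ≤ L.length := by exact_mod_cast hLpos
  have hvn : (L.length : ℝ) ≤ S.card := by exact_mod_cast hle
  have hκ' : 16 * (κ : ℝ) ≤ S.card := by exact_mod_cast hκ
  have hl0 : 0 ≤ lam := by
    rw [hlam]; positivity
  have hX := rpow_ineq (S.card : ℝ) (L.length : ℝ) C lam (by linarith) hvn hn0 hC hlam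
  have hR := real_ineq (S.card : ℝ) (L.length : ℝ) κ lam _ hv1 hvn (by positivity) hκ' hl0 hl hX
  have hCn : C * (S.card : ℝ) ^ ((4 : ℝ) / 3) = S.card * lam := by
    rw [hlam]
    have : (S.card : ℝ) ^ ((4 : ℝ) / 3) = S.card * (S.card : ℝ) ^ ((1 : ℝ) / 3) := by
      have h5 : ((4 : ℝ) / 3) = 1 + 1 / 3 := by norm_num
      rw [h5, Real.rpow_add hn0, Real.rpow_one]
    rw [this]; ring
  rw [hCn] at htot
  nlinarith

end Pool.Agent.H56.FT.LOW
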