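import Pool.Agent.H52.FT.Targets

namespace Pool.Agent.H56.FT.MIN

open Pool.Agent.H52.FT

lemma finite_wd {α : Type} (S : Finset α) : {L : List α | Wd S L}.Finite := by
  classical
  have h1 : ({l : List S | l.length ≤ S.card}).Finite := List.finite_length_le S S.card
  apply (h1.image (List.map Subtype.val)).subset
  intro L hL
  refine ⟨L.attach.map (fun z => (⟨z.1, hL.2 z.1 z.2⟩ : S)), ?_, ?_⟩
  · rw [Set.mem_setOf_eq, List.length_map, List.length_attach, ← List.toFinset_card_of_nodup hL.1]
    apply Finset.card_le_card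
    intro z hz
    exact hL.2 z (List.mem_toFinset.mp hz)
  · rw [List.map_map]
    simp [Function.comp_def]

theorem mn : T_MIN := by
  intro α S p u h
  have hf : ({L : List α | Wd S L ∧ ¬ L.Sublist u}).Finite :=
    (finite_wd S).subset (fun L hL => hL.1)
  obtain ⟨L, hL, hmin⟩ := Set.exists_min_image _ (cost p) hf h
  exact ⟨L, hL.1, hL.2, fun L' h1 h2 => hmin L' ⟨h1, h2⟩⟩

end Pool.Agent.H56.FT.MIN
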