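import Pool.Agent.H52.FT.Targets

namespace Pool.Agent.H56.FT.WY

open Pool.Agent.H52.FT

lemma cost_le {α : Type} (p : α → ℝ) (P : ℝ) : ∀ L : List α, (∀ z ∈ L, p z ≤ P) →
    cost p L ≤ L.length * P := by
  intro L
  induction L with
  | nil => intro _; simp
  | cons a L ih =>
    intro h
    rw [cost_cons, List.length_cons]
    have h1 := h a List.mem_cons_self
    have h2 := ih (fun z hz => h z (List.mem_cons_of_mem _ hz))
    push_cast
    linarith

theorem wy (h : T_GR) : T_WY := by
  intro α _ J S p q Θ cl P u hq hΘ hS hL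
  classical
  set c : ℕ → ℕ := fun j => ⌈Θ / P j⌉₊ - 1 with hc
  refine ⟨S.filter (fun z => u.count z < c (cl z)), Finset.filter_subset _ _, ?_, ?_⟩
  · set Y := S.filter (fun z => u.count z < c (cl z)) with hY
    have h1 : Y.card = ∑ j ∈ Finset.range J, (Y.filter (fun z => cl z = j)).card := by
      apply Finset.card_eq_sum_card_fiberwise
      intro z hz
      have hz' : z ∈ S := (Finset.mem_filter.mp hz).1
      exact Finset.mem_coe.mpr (Finset.mem_range.mpr (hS z hz').2.2)
    have h2 : ∀ j ∈ Finset.range J, ((Y.filter (fun z => cl z = j)).card : ℝ) ≤ Θ / q := by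
      intro j _
      by_contra hcon
      push Not at hcon
      set V := Y.filter (fun z => cl z = j) with hV
      have hΘq : 0 < Θ / q := by positivity
      have hVne : V.Nonempty := by
        rw [← Finset.card_pos]
        have : (0 : ℝ) < V.card := lt_trans hΘq hcon
        exact_mod_cast this
      have hVmem : ∀ z ∈ V, z ∈ S ∧ u.count z < c j ∧ cl z = j := by
        intro z hz
        have hz1 := Finset.mem_filter.mp hz
        have hz2 := Finset.mem_filter.mp hz1.1
        refine ⟨hz2.1, ?_, hz1.2⟩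
        have := hz2.2
        rwa [hz1.2] at this
      obtain ⟨z0, hz0⟩ := hVne
      obtain ⟨hz0S, hz0c, hz0j⟩ := hVmem z0 hz0
      obtain ⟨hqp, hpP, _⟩ := hS z0 hz0S
      rw [hz0j] at hpP
      have hPq : q ≤ P j := hqp.trans hpP
      have hP0 : 0 < P j := lt_of_lt_of_le hq hPq
      have hcj1 : 1 ≤ c j := by omega
      have hcjlt : (c j : ℝ) < Θ / P j := by
        have : c j < ⌈Θ / P j⌉₊ := by
          have : c j = ⌈Θ / P j⌉₊ - 1 := rfl
          omega
        exact Nat.lt_ceil.mp this
      have hcjP : (c j : ℝ) * P j < Θ := by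
        rwa [lt_div_iff₀ hP0] at hcjlt
      have hcjq : (c j : ℝ) < Θ / q := by
        rw [lt_div_iff₀ hq]
        calc (c j : ℝ) * q ≤ c j * P j := by
              apply mul_le_mul_of_nonneg_left hPq; positivity
          _ < Θ := hcjP
      have hcard : c j ≤ V.card := by
        have : (c j : ℝ) < V.card := lt_trans hcjq hcon
        exact_mod_cast this.le
      obtain ⟨L, hL1, hL2, hL3⟩ := h α V u (c j) hcj1 hcard (fun z hz => (hVmem z hz).2.1)
      have hLS : Wd S L := ⟨hL1.1, fun z hz => (hVmem z (hL1.2 z hz)).1⟩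
      have h5 := hL L hLS hL3
      have h6 : cost p L ≤ L.length * P j := by
        apply cost_le
        intro z hz
        obtain ⟨hzS, _, hzj⟩ := hVmem z (hL1.2 z hz)
        have := (hS z hzS).2.1
        rwa [hzj] at this
      rw [hL2] at h6
      linarith
    rw [h1]
    push_cast
    calc ∑ j ∈ Finset.range J, ((Y.filter (fun z => cl z = j)).card : ℝ)
        ≤ ∑ j ∈ Finset.range J, Θ / q := Finset.sum_le_sum h2
      _ = J * (Θ / q) := by rw [Finset.sum_const, Finset.card_range, nsmul_eq_mul]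
  · intro z hz
    rw [Finset.mem_sdiff, Finset.mem_filter] at hz
    obtain ⟨hzS, hz2⟩ := hz
    have h3 : c (cl z) ≤ u.count z := by
      by_contra h4
      push Not at h4
      exact hz2 ⟨hzS, h4⟩
    have h4 : Θ / P (cl z) ≤ ⌈Θ / P (cl z)⌉₊ := Nat.le_ceil _
    have h5 : ⌈Θ / P (cl z)⌉₊ ≤ u.count z + 1 := by
      have : c (cl z) = ⌈Θ / P (cl z)⌉₊ - 1 := rfl
      omega
    have h6 : (⌈Θ / P (cl z)⌉₊ : ℝ) ≤ u.count z + 1 := by exact_mod_cast h5
    linarith

end Pool.Agent.H56.FT.WY
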